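import Mathlib
import Pool.Agent.S15649

/-!
# Right random context rules are superfluous

`k_min = 0`: every language generated by a one-sided random context grammar (by the known facts
these are exactly the recursively enumerable languages) is generated by a left random context
grammar, i.e. by a one-sided random context grammar with `P_R = ∅`.
-/

set_option autoImplicit false

namespace Pool.Agent.Results.MP_05b2f7_lc.NoRightRules

/-- A one-sided random context grammar with terminal alphabet `T`: finite nonterminal alphabet `N`,
start symbol `S`, finite sets `PL`, `PR` of left and right rules `(A, x, U, W)` (rewrite `A` by `x`,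
permitting context `U`, forbidding context `W`). Erasing rules are allowed. -/
structure Grammar (T : Type) where
  N : Type
  finN : Finite N
  S : N
  PL : Finset (N × List (Symbol T N) × Finset N × Finset N)
  PR : Finset (N × List (Symbol T N) × Finset N × Finset N)

variable {T : Type}

/-- One derivation step `u A v ⇒ u x v`: by a left rule whose permitting symbols all occur in `u`
and whose forbidding symbols do not occur in `u`, or by a right rule with the same conditions
on `v`. -/
def Grammar.Step (G : Grammar T) (α β : List (Symbol T G.N)) : Prop :=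
  ∃ (u v : List (Symbol T G.N)) (A : G.N) (x : List (Symbol T G.N)) (U W : Finset G.N),
    α = u ++ [Symbol.nonterminal A] ++ v ∧ β = u ++ x ++ v ∧
    (((A, x, U, W) ∈ G.PL ∧ (∀ B ∈ U, Symbol.nonterminal B ∈ u) ∧
        (∀ B ∈ W, Symbol.nonterminal B ∉ u)) ∨
     ((A, x, U, W) ∈ G.PR ∧ (∀ B ∈ U, Symbol.nonterminal B ∈ v) ∧
        (∀ B ∈ W, Symbol.nonterminal B ∉ v)))

/-- The generated language: all terminal words derivable from the start symbol. -/
def Grammar.language (G : Grammar T) : Language T :=
  {w | Relation.ReflTransGen G.Step [Symbol.nonterminal G.S] (w.map Symbol.terminal)}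

/-- Every one-sided random context grammar over a finite terminal alphabet has an equivalent
left random context grammar (`P_R = ∅`). -/
theorem left (hT : Finite T) (G : Grammar T) : ∃ H : Grammar T, H.PR = ∅ ∧ H.language = G.language := by
  classical
  obtain ⟨N', hN', S', PL', PR', hR, hL⟩ := Pool.Agent.S15649.result T G.N hT G.finN G.S G.PL G.PR
  refine ⟨⟨N', hN', S', PL' ∪ PR', ∅⟩, rfl, ?_⟩
  ext w
  show Relation.ReflTransGen _ _ _ ↔ Relation.ReflTransGen _ _ _
  have key : (Grammar.Step (⟨N', hN', S', PL' ∪ PR', ∅⟩ : Grammar T)) =
      (fun (α β : List (Symbol T N')) =>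
            ∃ (u v : List (Symbol T N')) (A : N') (x : List (Symbol T N')) (U W : Finset N'),
              α = u ++ [Symbol.nonterminal A] ++ v ∧ β = u ++ x ++ v ∧
              (((A, x, U, W) ∈ PL' ∧ (∀ B ∈ U, Symbol.nonterminal B ∈ u) ∧
                  (∀ B ∈ W, Symbol.nonterminal B ∉ u)) ∨
               ((A, x, U, W) ∈ PR' ∧ (∀ B ∈ U, Symbol.nonterminal B ∈ v) ∧
                  (∀ B ∈ W, Symbol.nonterminal B ∉ v)))) := by
    funext α β
    apply propext
    constructor
    · rintro ⟨u, v, A, x, U, W, h1, h2, h3⟩
      refine ⟨u, v, A, x, U, W, h1, h2, ?_⟩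
      rcases h3 with ⟨h4, h5, h6⟩ | ⟨h4, -, -⟩
      · rcases Finset.mem_union.1 h4 with h | h
        · exact Or.inl ⟨h, h5, h6⟩
        · obtain ⟨rfl, rfl⟩ := hR A x U W h
          exact Or.inr ⟨h, by simp, by simp⟩
      · simp at h4
    · rintro ⟨u, v, A, x, U, W, h1, h2, h3⟩
      refine ⟨u, v, A, x, U, W, h1, h2, ?_⟩
      rcases h3 with ⟨h4, h5, h6⟩ | ⟨h4, h5, h6⟩
      · exact Or.inl ⟨Finset.mem_union_left _ h4, h5, h6⟩
      · obtain ⟨rfl, rfl⟩ := hR A x U W h4
        exact Or.inl ⟨Finset.mem_union_right _ h4, by simp, by simp⟩
  rw [key]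
  exact (hL w).symm

/-- **`k_min = 0`.** Over every finite terminal alphabet `T`, the least `k` such that every language
generated by a one-sided random context grammar is generated by one with at most `k` right random
context rules is `0`; and every such language is generated by a left random context grammar. -/
theorem result (T : Type) [Finite T] :
    IsLeast {k : ℕ | ∀ G : Grammar T, ∃ H : Grammar T, H.PR.card ≤ k ∧ H.language = G.language} 0 ∧
    ∀ G : Grammar T, ∃ H : Grammar T, H.PR = ∅ ∧ H.language = G.language := by
  refine ⟨⟨?_, fun k _ => Nat.zero_le k⟩, left inferInstance⟩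
  intro G
  obtain ⟨H, h1, h2⟩ := left inferInstance G
  exact ⟨H, by rw [h1]; simp, h2⟩

end Pool.Agent.Results.MP_05b2f7_lc.NoRightRules
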